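import Mathlib
import Pool.Agent.Helper47.UG.Stmts

set_option autoImplicit false

/-!
Row BDA of the project UG (MP_e500b6_co): few sieved vectors have a large smooth part.
-/

namespace Pool.Agent.Helper47.UG

open Finset
open scoped Classical
open Pool.Agent.Helper17.SO (PP LL)
open Pool.Agent.Helper37.DG (box sbox hit Free sw Spl PD)

theorem bda_mem (u w p : ℕ) (hp : p ∈ PP u w) : u < p ∧ p ≤ w ∧ p.Prime := by
  unfold PP at hp
  rw [Finset.mem_filter, Finset.mem_Ioc] at hp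
  exact ⟨hp.1.1, hp.1.2, hp.2⟩

theorem bda_card (w : ℕ) : (PP 0 w).card ≤ w := by
  unfold PP
  refine (Finset.card_filter_le _ _).trans ?_
  simp

theorem bda_geom (p : ℕ) (hp : 2 ≤ p) (L : ℕ) :
    ∑ k ∈ Finset.Icc 1 L, 1 / (p : ℝ) ^ ((k + 1) / 2) ≤ 4 / p := by
  have hp' : (2 : ℝ) ≤ p := by exact_mod_cast hp
  have hp0 : (0 : ℝ) < p := by linarith
  have key : ∀ m : ℕ, ∑ k ∈ Finset.Icc 1 (2 * m), 1 / (p : ℝ) ^ ((k + 1) / 2) ≤
      4 / p - 4 / (p : ℝ) ^ (m + 1) := by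
    intro m
    induction m with
    | zero => simp
    | succ m ih =>
      have e : 2 * (m + 1) = 2 * m + 1 + 1 := by ring
      rw [e, Finset.sum_Icc_succ_top (by omega), Finset.sum_Icc_succ_top (by omega)]
      have e1 : (2 * m + 1 + 1) / 2 = m + 1 := by omega
      have e2 : (2 * m + 1 + 1 + 1) / 2 = m + 1 := by omega
      rw [e1, e2]
      have h1 : 4 / (p : ℝ) ^ (m + 1 + 1) ≤ 2 / (p : ℝ) ^ (m + 1) := by
        rw [div_le_div_iff₀ (by positivity) (by positivity), pow_succ (p : ℝ) (m + 1)]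
        have := pow_pos hp0 (m + 1)
        nlinarith
      have h2 : 1 / (p : ℝ) ^ (m + 1) + 1 / (p : ℝ) ^ (m + 1) = 2 / (p : ℝ) ^ (m + 1) := by ring
      have h3 : 4 / (p : ℝ) ^ (m + 1) = 2 / (p : ℝ) ^ (m + 1) + 2 / (p : ℝ) ^ (m + 1) := by ring
      linarith
  calc ∑ k ∈ Finset.Icc 1 L, 1 / (p : ℝ) ^ ((k + 1) / 2)
      ≤ ∑ k ∈ Finset.Icc 1 (2 * L), 1 / (p : ℝ) ^ ((k + 1) / 2) := by
        apply Finset.sum_le_sum_of_subset_of_nonneg
        · apply Finset.Icc_subset_Icc_right; omega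
        · intro k _ _; positivity
    _ ≤ 4 / p - 4 / (p : ℝ) ^ (L + 1) := key L
    _ ≤ 4 / p := by
        have : 0 ≤ 4 / (p : ℝ) ^ (L + 1) := by positivity
        linarith

theorem bda_log (a b c : ℤ) (w : ℕ) (v : ℤ × ℤ) : Real.log (sm a b c w v) =
    ∑ p ∈ PP 0 w, ((qf a b c v).natAbs.factorization p : ℝ) * Real.log p := by
  unfold sm
  push_cast
  rw [Real.log_prod]
  · refine Finset.sum_congr rfl fun p _ => ?_
    rw [Real.log_pow]
  · intro p hp
    have h := (bda_mem 0 w p hp).2.2.pos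
    have : (0 : ℝ) < p := by exact_mod_cast h
    positivity

theorem bda_smpos (a b c : ℤ) (w : ℕ) (v : ℤ × ℤ) : 0 < sm a b c w v := by
  unfold sm
  apply Finset.prod_pos
  intro p hp
  exact pow_pos (bda_mem 0 w p hp).2.2.pos _

/-- the exponent is at most the number of powers up to `L` dividing the value -/
theorem bda_exp (q : ℤ) (p L : ℕ) (h : ¬ ((p : ℤ) ^ (L + 1)) ∣ q) :
    (q.natAbs.factorization p : ℝ) ≤
      ∑ k ∈ Finset.Icc 1 L, (if ((p : ℤ) ^ k) ∣ q then (1 : ℝ) else 0) := by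
  have h1 : ∀ k ≤ q.natAbs.factorization p, ((p : ℤ) ^ k) ∣ q := by
    intro k hk
    have h2 : p ^ k ∣ q.natAbs := (pow_dvd_pow p hk).trans (Nat.ordProj_dvd _ _)
    have h3 : ((p ^ k : ℕ) : ℤ) ∣ q := Int.natCast_dvd.mpr h2
    rwa [Nat.cast_pow] at h3
  have h4 : q.natAbs.factorization p ≤ L := by
    by_contra hc
    exact h (h1 (L + 1) (by omega))
  calc (q.natAbs.factorization p : ℝ)
      = ∑ k ∈ Finset.Icc 1 (q.natAbs.factorization p), (1 : ℝ) := by simp
    _ = ∑ k ∈ Finset.Icc 1 (q.natAbs.factorization p),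
          (if ((p : ℤ) ^ k) ∣ q then (1 : ℝ) else 0) := by
        refine Finset.sum_congr rfl fun k hk => ?_
        rw [if_pos (h1 k (Finset.mem_Icc.mp hk).2)]
    _ ≤ _ := by
        apply Finset.sum_le_sum_of_subset_of_nonneg
        · exact Finset.Icc_subset_Icc_right h4
        · intro k _ _
          split_ifs <;> norm_num

theorem bda_hk (p w k : ℕ) (h : w ^ 4 < p ^ k) : (w : ℝ) ^ 2 ≤ (p : ℝ) ^ ((k + 1) / 2) := by
  rcases Nat.eq_zero_or_pos p with hp | hp
  · subst hp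
    rcases Nat.eq_zero_or_pos k with hk | hk
    · subst hk
      simp at h
      simp [h]
    · rw [zero_pow (by omega)] at h
      omega
  have h1 : (w ^ 2) ^ 2 ≤ (p ^ ((k + 1) / 2)) ^ 2 := by
    calc (w ^ 2) ^ 2 = w ^ 4 := by ring
      _ ≤ p ^ k := h.le
      _ ≤ p ^ ((k + 1) / 2 * 2) := Nat.pow_le_pow_right hp (by omega)
      _ = (p ^ ((k + 1) / 2)) ^ 2 := by rw [pow_mul]
  have h2 : w ^ 2 ≤ p ^ ((k + 1) / 2) := (Nat.pow_le_pow_iff_left two_ne_zero).mp h1
  exact_mod_cast h2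

theorem st_BDA (h1 : ST_MT1) (h2 : ST_UPE) : ST_BDA := by
  obtain ⟨C1, hC1, hM⟩ := h1
  obtain ⟨b, C, hb, hC, hU⟩ := h2
  refine ⟨b, 4 * C * (1 + C1), hb, by positivity, ?_⟩
  intro a b' c j N M w z T A _ hPrm hM1 hMN hw hwz hT hwM hzN hA
  have hN1 : 1 ≤ N := hM1.trans hMN
  set X : ℝ := ((M : ℝ) * N) * sw A with hX
  have hsw : 0 < sw A := by unfold sw; positivity
  have hX0 : 0 ≤ X := by positivity
  have hw' : (6 : ℝ) ≤ w := by exact_mod_cast hw
  have hw0 : (0 : ℝ) < w := by linarith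
  have hT0 : (0 : ℝ) < T := by exact_mod_cast hT
  have hlogw : 1 ≤ Real.log w := by
    rw [Real.le_log_iff_exp_le hw0]
    have := Real.exp_one_lt_d9
    linarith
  set V : Finset (ℤ × ℤ) := (sbox N M).filter (fun v => v ≠ 0 ∧ Free j A v) with hV
  -- the basic count
  have hcnt : ∀ p ∈ PP 0 w, ∀ k : ℕ, 1 ≤ k → p ^ k ≤ w ^ 5 →
      ((V.filter (fun v => ((p : ℤ) ^ k) ∣ qf a b' c v)).card : ℝ) ≤
        C * X / (p : ℝ) ^ ((k + 1) / 2) := by
    intro p hp k hk hpk
    obtain ⟨_, hpw, hpp⟩ := bda_mem 0 w p hp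
    have hu := hU a b' c j N M z p k A hPrm hM1 hMN (by omega) hpp hk (hpk.trans hwM)
      ((Nat.mul_le_mul_left _ hpk).trans hzN) (by
        intro l hl
        obtain ⟨hl1, hl2, hl3⟩ := bda_mem w z l (hA hl)
        exact ⟨hl3, by omega, hl2, by omega⟩)
    have hsub : V.filter (fun v => ((p : ℤ) ^ k) ∣ qf a b' c v) ⊆
        (sbox N M).filter (fun v => ((p : ℤ) ^ k) ∣ qf a b' c v ∧ Free j A v) := by
      intro v hv
      rw [Finset.mem_filter, hV, Finset.mem_filter] at hv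
      rw [Finset.mem_filter]
      exact ⟨hv.1.1, hv.2, hv.1.2.2⟩
    calc ((V.filter (fun v => ((p : ℤ) ^ k) ∣ qf a b' c v)).card : ℝ)
        ≤ (((sbox N M).filter (fun v => ((p : ℤ) ^ k) ∣ qf a b' c v ∧ Free j A v)).card : ℝ) := by
          exact_mod_cast Finset.card_le_card hsub
      _ ≤ C * ((M : ℝ) * N / (p : ℝ) ^ ((k + 1) / 2)) * sw A := hu
      _ = C * X / (p : ℝ) ^ ((k + 1) / 2) := by rw [hX]; ring
  set L : ℕ → ℕ := fun p => Nat.log p (w ^ 4) with hL
  have hL1 : ∀ p ∈ PP 0 w, w ^ 4 < p ^ (L p + 1) := by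
    intro p hp
    exact Nat.lt_pow_succ_log_self (bda_mem 0 w p hp).2.2.one_lt _
  have hL2 : ∀ p ∈ PP 0 w, p ^ (L p) ≤ w ^ 4 := by
    intro p hp
    exact Nat.pow_log_le_self _ (by positivity)
  have hL3 : ∀ p ∈ PP 0 w, p ^ (L p + 1) ≤ w ^ 5 := by
    intro p hp
    calc p ^ (L p + 1) = p ^ (L p) * p := pow_succ _ _
      _ ≤ w ^ 4 * w := Nat.mul_le_mul (hL2 p hp) (bda_mem 0 w p hp).2.1
      _ = w ^ 5 := by ring
  -- first part
  set B1 : Finset (ℤ × ℤ) := (PP 0 w).biUnion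
    (fun p => V.filter (fun v => ((p : ℤ) ^ (L p + 1)) ∣ qf a b' c v)) with hB1
  have hB1c : (B1.card : ℝ) ≤ C * X / w := by
    have s1 : (B1.card : ℝ) ≤ ∑ p ∈ PP 0 w,
        ((V.filter (fun v => ((p : ℤ) ^ (L p + 1)) ∣ qf a b' c v)).card : ℝ) := by
      rw [hB1]
      exact_mod_cast Finset.card_biUnion_le
    have s2 : ∀ p ∈ PP 0 w, ((V.filter (fun v => ((p : ℤ) ^ (L p + 1)) ∣ qf a b' c v)).card : ℝ) ≤
        C * X / (w : ℝ) ^ 2 := by
      intro p hp
      refine (hcnt p hp (L p + 1) (by omega) (hL3 p hp)).trans ?_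
      exact div_le_div_of_nonneg_left (by positivity) (by positivity) (bda_hk p w _ (hL1 p hp))
    calc (B1.card : ℝ) ≤ ∑ p ∈ PP 0 w, C * X / (w : ℝ) ^ 2 := s1.trans (Finset.sum_le_sum s2)
      _ = (PP 0 w).card * (C * X / (w : ℝ) ^ 2) := by rw [Finset.sum_const, nsmul_eq_mul]
      _ ≤ w * (C * X / (w : ℝ) ^ 2) := by
          apply mul_le_mul_of_nonneg_right _ (by positivity)
          exact_mod_cast bda_card w
      _ = C * X / w := by field_simp
  -- second part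
  set B2 : Finset (ℤ × ℤ) := V.filter (fun v => w ^ T < sm a b' c w v ∧
    ∀ p ∈ PP 0 w, ¬ ((p : ℤ) ^ (L p + 1)) ∣ qf a b' c v) with hB2
  have hB2c : (B2.card : ℝ) ≤ 4 * C * (1 + C1) * X / T := by
    set g : ℤ × ℤ → ℝ := fun v => ∑ p ∈ PP 0 w, ∑ k ∈ Finset.Icc 1 (L p),
      (if ((p : ℤ) ^ k) ∣ qf a b' c v then (1 : ℝ) else 0) * Real.log p with hg
    have hlogp : ∀ p ∈ PP 0 w, 0 ≤ Real.log p := by
      intro p hp
      apply Real.log_nonneg
      exact_mod_cast (bda_mem 0 w p hp).2.2.one_lt.le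
    have hg0 : ∀ v, 0 ≤ g v := by
      intro v
      refine Finset.sum_nonneg fun p hp => Finset.sum_nonneg fun k _ => ?_
      refine mul_nonneg ?_ (hlogp p hp)
      split_ifs <;> norm_num
    have t1 : ∀ v ∈ B2, (T : ℝ) * Real.log w ≤ g v := by
      intro v hv
      rw [hB2, Finset.mem_filter] at hv
      obtain ⟨_, hv1, hv2⟩ := hv
      have u1 : (T : ℝ) * Real.log w ≤ Real.log (sm a b' c w v) := by
        rw [← Real.log_pow]
        apply Real.log_le_log (by positivity)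
        exact_mod_cast hv1.le
      refine u1.trans ?_
      rw [bda_log, hg]
      refine Finset.sum_le_sum fun p hp => ?_
      rw [← Finset.sum_mul]
      exact mul_le_mul_of_nonneg_right (bda_exp _ p (L p) (hv2 p hp)) (hlogp p hp)
    have t2 : (B2.card : ℝ) * ((T : ℝ) * Real.log w) ≤ ∑ v ∈ V, g v := by
      calc (B2.card : ℝ) * ((T : ℝ) * Real.log w) = ∑ v ∈ B2, (T : ℝ) * Real.log w := by
            rw [Finset.sum_const, nsmul_eq_mul]
        _ ≤ ∑ v ∈ B2, g v := Finset.sum_le_sum t1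
        _ ≤ ∑ v ∈ V, g v := by
            apply Finset.sum_le_sum_of_subset_of_nonneg
            · rw [hB2]; exact Finset.filter_subset _ _
            · intro v _ _; exact hg0 v
    have t3 : ∑ v ∈ V, g v = ∑ p ∈ PP 0 w, ∑ k ∈ Finset.Icc 1 (L p),
        ((V.filter (fun v => ((p : ℤ) ^ k) ∣ qf a b' c v)).card : ℝ) * Real.log p := by
      rw [hg, Finset.sum_comm]
      refine Finset.sum_congr rfl fun p _ => ?_
      rw [Finset.sum_comm]
      refine Finset.sum_congr rfl fun k _ => ?_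
      rw [← Finset.sum_mul, Finset.card_filter]
      push_cast
      rfl
    have t4 : ∑ v ∈ V, g v ≤ ∑ p ∈ PP 0 w, 4 * C * X * (Real.log p / p) := by
      rw [t3]
      refine Finset.sum_le_sum fun p hp => ?_
      have hpp := (bda_mem 0 w p hp).2.2
      calc ∑ k ∈ Finset.Icc 1 (L p),
            ((V.filter (fun v => ((p : ℤ) ^ k) ∣ qf a b' c v)).card : ℝ) * Real.log p
          ≤ ∑ k ∈ Finset.Icc 1 (L p), (C * X / (p : ℝ) ^ ((k + 1) / 2)) * Real.log p := by
            refine Finset.sum_le_sum fun k hk => ?_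
            rw [Finset.mem_Icc] at hk
            refine mul_le_mul_of_nonneg_right (hcnt p hp k hk.1 ?_) (hlogp p hp)
            calc p ^ k ≤ p ^ (L p + 1) := Nat.pow_le_pow_right hpp.pos (by omega)
              _ ≤ w ^ 5 := hL3 p hp
        _ = (C * X * Real.log p) * ∑ k ∈ Finset.Icc 1 (L p), 1 / (p : ℝ) ^ ((k + 1) / 2) := by
            rw [Finset.mul_sum]
            refine Finset.sum_congr rfl fun k _ => ?_
            ring
        _ ≤ (C * X * Real.log p) * (4 / p) := by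
            refine mul_le_mul_of_nonneg_left (bda_geom p hpp.two_le _) ?_
            exact mul_nonneg (by positivity) (hlogp p hp)
        _ = 4 * C * X * (Real.log p / p) := by ring
    have t5 : ∑ p ∈ PP 0 w, 4 * C * X * (Real.log p / p) ≤ 4 * C * X * ((1 + C1) * Real.log w) := by
      rw [← Finset.mul_sum]
      refine mul_le_mul_of_nonneg_left ?_ (by positivity)
      refine (hM w (by omega)).trans ?_
      nlinarith
    have hTw : 0 < (T : ℝ) * Real.log w := by positivity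
    have t6 : (B2.card : ℝ) * ((T : ℝ) * Real.log w) ≤ 4 * C * X * ((1 + C1) * Real.log w) :=
      t2.trans (t4.trans t5)
    rw [le_div_iff₀ hT0]
    have hlw : 0 < Real.log w := by linarith
    have t7 : ((B2.card : ℝ) * T) * Real.log w ≤ (4 * C * (1 + C1) * X) * Real.log w := by
      linarith
    exact le_of_mul_le_mul_right t7 hlw
  -- combination
  have hsub : (sbox N M).filter (fun v => v ≠ 0 ∧ Free j A v ∧ w ^ T < sm a b' c w v) ⊆
      B1 ∪ B2 := by
    intro v hv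
    rw [Finset.mem_filter] at hv
    have hvV : v ∈ V := by
      rw [hV, Finset.mem_filter]
      exact ⟨hv.1, hv.2.1, hv.2.2.1⟩
    rw [Finset.mem_union]
    by_cases hx : ∃ p ∈ PP 0 w, ((p : ℤ) ^ (L p + 1)) ∣ qf a b' c v
    · left
      obtain ⟨p, hp, hd⟩ := hx
      rw [hB1, Finset.mem_biUnion]
      exact ⟨p, hp, Finset.mem_filter.mpr ⟨hvV, hd⟩⟩
    · right
      push Not at hx
      rw [hB2, Finset.mem_filter]
      exact ⟨hvV, hv.2.2.2, hx⟩
  calc (((sbox N M).filter (fun v => v ≠ 0 ∧ Free j A v ∧ w ^ T < sm a b' c w v)).card : ℝ)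
      ≤ ((B1 ∪ B2).card : ℝ) := by exact_mod_cast Finset.card_le_card hsub
    _ ≤ (B1.card : ℝ) + B2.card := by exact_mod_cast Finset.card_union_le _ _
    _ ≤ C * X / w + 4 * C * (1 + C1) * X / T := add_le_add hB1c hB2c
    _ ≤ 4 * C * (1 + C1) * X / w + 4 * C * (1 + C1) * X / T := by
        gcongr
        nlinarith [mul_nonneg hC.le hC1]
    _ = 4 * C * (1 + C1) * (1 / (T : ℝ) + 1 / (w : ℝ)) * ((M : ℝ) * N) * sw A := by
        rw [hX]; ring

end Pool.Agent.Helper47.UG
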