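import Mathlib
import Pool.Agent.Helper47.UG.Stmts

set_option autoImplicit false

/-!
Row DIC of the project UG (MP_e500b6_co): either every value is taken at most four times or the
form is integral of small height.
-/

namespace Pool.Agent.Helper47.UG

open Finset
open scoped Classical
open Pool.Agent.Helper37.DG (sbox)

theorem dic_pm (x y x' y' : ℤ) (h1 : x ^ 2 = x' ^ 2) (h2 : x * y = x' * y')
    (h3 : y ^ 2 = y' ^ 2) : (x = x' ∧ y = y') ∨ (x = -x' ∧ y = -y') := by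
  by_cases hx : x = 0
  · have hx' : x' = 0 := by
      have h4 : x' ^ 2 = 0 := by rw [← h1, hx]; norm_num
      exact (pow_eq_zero_iff two_ne_zero).mp h4
    rcases sq_eq_sq_iff_eq_or_eq_neg.mp h3 with h | h
    · left; exact ⟨by rw [hx, hx'], h⟩
    · right; exact ⟨by rw [hx, hx']; norm_num, h⟩
  · rcases sq_eq_sq_iff_eq_or_eq_neg.mp h1 with h | h
    · left
      refine ⟨h, ?_⟩
      rw [← h] at h2
      exact mul_left_cancel₀ hx h2
    · right
      refine ⟨h, ?_⟩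
      have h4 : x * y = x * (-y') := by rw [h2, h]; ring
      exact mul_left_cancel₀ hx h4

theorem dic_scal (p q r p2 q2 r2 : ℝ) (h0 : ¬ (p = 0 ∧ q = 0 ∧ r = 0)) (h1 : p * q2 = q * p2)
    (h2 : p * r2 = r * p2) (h3 : q * r2 = r * q2) :
    ∃ t : ℝ, p2 = t * p ∧ q2 = t * q ∧ r2 = t * r := by
  by_cases hp : p = 0
  · by_cases hq : q = 0
    · have hr : r ≠ 0 := fun h => h0 ⟨hp, hq, h⟩
      refine ⟨r2 / r, ?_, ?_, ?_⟩
      · rw [eq_comm, div_mul_eq_mul_div, div_eq_iff hr]; linarith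
      · rw [eq_comm, div_mul_eq_mul_div, div_eq_iff hr]; linarith
      · rw [eq_comm, div_mul_eq_mul_div, div_eq_iff hr]
    · refine ⟨q2 / q, ?_, ?_, ?_⟩
      · rw [eq_comm, div_mul_eq_mul_div, div_eq_iff hq]; linarith
      · rw [eq_comm, div_mul_eq_mul_div, div_eq_iff hq]
      · rw [eq_comm, div_mul_eq_mul_div, div_eq_iff hq]; linarith
  · refine ⟨p2 / p, ?_, ?_, ?_⟩
    · rw [eq_comm, div_mul_eq_mul_div, div_eq_iff hp]
    · rw [eq_comm, div_mul_eq_mul_div, div_eq_iff hp]; linarith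
    · rw [eq_comm, div_mul_eq_mul_div, div_eq_iff hp]; linarith

/-- entries of the difference of the squares -/
def dicP (v w : ℤ × ℤ) : ℤ := v.1 ^ 2 - w.1 ^ 2
def dicQ (v w : ℤ × ℤ) : ℤ := v.1 * v.2 - w.1 * w.2
def dicR (v w : ℤ × ℤ) : ℤ := v.2 ^ 2 - w.2 ^ 2

theorem dic_lin (A B C : ℝ) (v w : ℤ × ℤ) (h : Fm A B C v = Fm A B C w) :
    A * (dicP v w : ℝ) + B * (dicQ v w : ℝ) + C * (dicR v w : ℝ) = 0 := by
  unfold Fm at h
  unfold dicP dicQ dicR
  push_cast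
  linear_combination h

theorem dic_nz (v w : ℤ × ℤ) (h1 : w ≠ v) (h2 : w ≠ -v) :
    ¬ (dicP v w = 0 ∧ dicQ v w = 0 ∧ dicR v w = 0) := by
  rintro ⟨hp, hq, hr⟩
  unfold dicP at hp
  unfold dicQ at hq
  unfold dicR at hr
  rcases dic_pm w.1 w.2 v.1 v.2 (by linarith) (by linarith) (by linarith) with h | h
  · exact h1 (Prod.ext h.1 h.2)
  · exact h2 (Prod.ext (by simpa using h.1) (by simpa using h.2))

theorem dic_det (v w : ℤ × ℤ) : v.1 ^ 2 * dicR v w + v.2 ^ 2 * dicP v w -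
    2 * v.1 * v.2 * dicQ v w = dicP v w * dicR v w - dicQ v w ^ 2 := by
  unfold dicP dicQ dicR; ring

/-- the vector product of two difference vectors vanishes -/
def dicZ (v w w' : ℤ × ℤ) : Prop :=
  dicP v w * dicQ v w' = dicQ v w * dicP v w' ∧ dicP v w * dicR v w' = dicR v w * dicP v w' ∧
  dicQ v w * dicR v w' = dicR v w * dicQ v w'

/-- if the determinant of the first difference does not vanish then the second is equal to it -/
theorem dic_same (v w w' : ℤ × ℤ) (h1 : w ≠ v) (h2 : w ≠ -v) (h1' : w' ≠ v) (h2' : w' ≠ -v)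
    (hZ : dicZ v w w') (hD : dicP v w * dicR v w - dicQ v w ^ 2 ≠ 0) :
    dicP v w' = dicP v w ∧ dicQ v w' = dicQ v w ∧ dicR v w' = dicR v w := by
  have hn := dic_nz v w h1 h2
  have hn' := dic_nz v w' h1' h2'
  obtain ⟨z1, z2, z3⟩ := hZ
  obtain ⟨t, ht1, ht2, ht3⟩ := dic_scal (dicP v w) (dicQ v w) (dicR v w) (dicP v w')
    (dicQ v w') (dicR v w') (by
      intro h
      apply hn
      exact ⟨by exact_mod_cast h.1, by exact_mod_cast h.2.1, by exact_mod_cast h.2.2⟩)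
    (by exact_mod_cast z1) (by exact_mod_cast z2) (by exact_mod_cast z3)
  have ht0 : t ≠ 0 := by
    intro h
    apply hn'
    rw [h] at ht1 ht2 ht3
    refine ⟨?_, ?_, ?_⟩
    · have : (dicP v w' : ℝ) = 0 := by rw [ht1]; ring
      exact_mod_cast this
    · have : (dicQ v w' : ℝ) = 0 := by rw [ht2]; ring
      exact_mod_cast this
    · have : (dicR v w' : ℝ) = 0 := by rw [ht3]; ring
      exact_mod_cast this
  have d1 := dic_det v w
  have d2 := dic_det v w'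
  have d1' : (v.1 : ℝ) ^ 2 * dicR v w + (v.2 : ℝ) ^ 2 * dicP v w - 2 * v.1 * v.2 * dicQ v w =
      dicP v w * dicR v w - (dicQ v w : ℝ) ^ 2 := by exact_mod_cast d1
  have d2' : (v.1 : ℝ) ^ 2 * dicR v w' + (v.2 : ℝ) ^ 2 * dicP v w' - 2 * v.1 * v.2 * dicQ v w' =
      dicP v w' * dicR v w' - (dicQ v w' : ℝ) ^ 2 := by exact_mod_cast d2
  have hD' : ((dicP v w : ℝ) * dicR v w - (dicQ v w : ℝ) ^ 2) ≠ 0 := by exact_mod_cast hD
  rw [ht1, ht2, ht3] at d2'
  have h5 : t * (1 - t) * ((dicP v w : ℝ) * dicR v w - (dicQ v w : ℝ) ^ 2) = 0 := by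
    linear_combination d2' - t * d1'
  have h6 : t = 1 := by
    rcases mul_eq_zero.mp h5 with h | h
    · rcases mul_eq_zero.mp h with h' | h'
      · exact absurd h' ht0
      · linarith
    · exact absurd h hD'
  rw [h6, one_mul] at ht1 ht2 ht3
  exact ⟨by exact_mod_cast ht1, by exact_mod_cast ht2, by exact_mod_cast ht3⟩

theorem dic_eqw (v w w' : ℤ × ℤ) (h : dicP v w' = dicP v w ∧ dicQ v w' = dicQ v w ∧
    dicR v w' = dicR v w) : w' = w ∨ w' = -w := by
  obtain ⟨h1, h2, h3⟩ := h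
  unfold dicP at h1
  unfold dicQ at h2
  unfold dicR at h3
  rcases dic_pm w'.1 w'.2 w.1 w.2 (by linarith) (by linarith) (by linarith) with h | h
  · left; exact Prod.ext h.1 h.2
  · right; exact Prod.ext (by simpa using h.1) (by simpa using h.2)

theorem dic_key (A B C s : ℝ) (v w1 w2 w3 : ℤ × ℤ) (hs : 0 < s) (hv : Fm A B C v = s)
    (e1 : Fm A B C w1 = s)
    (n1 : w1 ≠ v) (n1' : w1 ≠ -v) (n2 : w2 ≠ v) (n2' : w2 ≠ -v) (n3 : w3 ≠ v) (n3' : w3 ≠ -v)
    (h12 : w1 ≠ w2) (h13 : w1 ≠ w3) (h23 : w2 ≠ w3) (hZ2 : dicZ v w1 w2) (hZ3 : dicZ v w1 w3) :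
    False := by
  by_cases hD : dicP v w1 * dicR v w1 - dicQ v w1 ^ 2 = 0
  · have hE := dic_det v w1
    rw [hD] at hE
    have hl := dic_lin A B C v w1 (by rw [hv, e1])
    have hn := dic_nz v w1 n1 n1'
    set p := dicP v w1 with hp
    set q := dicQ v w1 with hq
    set r := dicR v w1 with hr
    have a1 : v.1 * q - v.2 * p = 0 := by
      have : (v.1 * q - v.2 * p) ^ 2 = 0 := by
        linear_combination p * hE - v.1 ^ 2 * hD
      exact (pow_eq_zero_iff two_ne_zero).mp this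
    have a2 : v.1 * r - v.2 * q = 0 := by
      have : (v.1 * r - v.2 * q) ^ 2 = 0 := by
        linear_combination r * hE - v.2 ^ 2 * hD
      exact (pow_eq_zero_iff two_ne_zero).mp this
    have a1' : (v.1 : ℝ) * q - v.2 * p = 0 := by exact_mod_cast a1
    have a2' : (v.1 : ℝ) * r - v.2 * q = 0 := by exact_mod_cast a2
    unfold Fm at hv
    have b1 : (p : ℝ) * s = 0 := by
      linear_combination (v.1 : ℝ) ^ 2 * hl - (p : ℝ) * hv - B * v.1 * a1' - C * v.1 * a2' -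
        C * v.2 * a1'
    have b2 : (q : ℝ) * s = 0 := by
      linear_combination (v.1 : ℝ) * v.2 * hl - (q : ℝ) * hv + A * v.1 * a1' - C * v.2 * a2'
    have b3 : (r : ℝ) * s = 0 := by
      linear_combination (v.2 : ℝ) ^ 2 * hl - (r : ℝ) * hv + A * v.2 * a1' + A * v.1 * a2' +
        B * v.2 * a2'
    apply hn
    refine ⟨?_, ?_, ?_⟩
    · have := (mul_eq_zero.mp b1).resolve_right hs.ne'
      exact_mod_cast this
    · have := (mul_eq_zero.mp b2).resolve_right hs.ne'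
      exact_mod_cast this
    · have := (mul_eq_zero.mp b3).resolve_right hs.ne'
      exact_mod_cast this
  · have r2 := dic_eqw v w1 w2 (dic_same v w1 w2 n1 n1' n2 n2' hZ2 hD)
    have r3 := dic_eqw v w1 w3 (dic_same v w1 w3 n1 n1' n3 n3' hZ3 hD)
    rcases r2 with r2 | r2
    · exact h12 r2.symm
    · rcases r3 with r3 | r3
      · exact h13 r3.symm
      · exact h23 (by rw [r2, r3])

theorem dic_bd (N M : ℕ) (hMN : M ≤ N) (v w : ℤ × ℤ) (hv : v ∈ sbox N M) (hw : w ∈ sbox N M) :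
    |dicP v w| ≤ 2 * (N : ℤ) ^ 2 ∧ |dicQ v w| ≤ 2 * (N : ℤ) ^ 2 ∧ |dicR v w| ≤ 2 * (N : ℤ) ^ 2 := by
  unfold sbox at hv hw
  rw [Finset.mem_product, Finset.mem_Icc, Finset.mem_Icc] at hv hw
  have hMN' : (M : ℤ) ≤ N := by exact_mod_cast hMN
  have key : ∀ x y : ℤ, -(N : ℤ) ≤ x → x ≤ N → -(N : ℤ) ≤ y → y ≤ N →
      |x * y| ≤ (N : ℤ) ^ 2 := by
    intro x y h1 h2 h3 h4
    rw [abs_mul, sq]
    exact mul_le_mul (abs_le.mpr ⟨h1, h2⟩) (abs_le.mpr ⟨h3, h4⟩) (abs_nonneg _) (by positivity)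
  have v1 := hv.1.1
  have v2 := hv.1.2
  have v3 : -(N : ℤ) ≤ v.2 := by linarith [hv.2.1]
  have v4 : v.2 ≤ (N : ℤ) := by linarith [hv.2.2]
  have w1 := hw.1.1
  have w2 := hw.1.2
  have w3 : -(N : ℤ) ≤ w.2 := by linarith [hw.2.1]
  have w4 : w.2 ≤ (N : ℤ) := by linarith [hw.2.2]
  unfold dicP dicQ dicR
  refine ⟨?_, ?_, ?_⟩
  · rw [sq v.1, sq w.1]
    have a := abs_le.mp (key v.1 v.1 v1 v2 v1 v2)
    have b := abs_le.mp (key w.1 w.1 w1 w2 w1 w2)
    rw [abs_le]; constructor <;> linarith [a.1, a.2, b.1, b.2]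
  · have a := abs_le.mp (key v.1 v.2 v1 v2 v3 v4)
    have b := abs_le.mp (key w.1 w.2 w1 w2 w3 w4)
    rw [abs_le]; constructor <;> linarith [a.1, a.2, b.1, b.2]
  · rw [sq v.2, sq w.2]
    have a := abs_le.mp (key v.2 v.2 v3 v4 v3 v4)
    have b := abs_le.mp (key w.2 w.2 w3 w4 w3 w4)
    rw [abs_le]; constructor <;> linarith [a.1, a.2, b.1, b.2]

theorem dic_prod (N x y x' y' : ℤ) (h1 : |x| ≤ 2 * N ^ 2) (h2 : |y| ≤ 2 * N ^ 2)
    (h3 : |x'| ≤ 2 * N ^ 2) (h4 : |y'| ≤ 2 * N ^ 2) : |x * y - x' * y'| ≤ 8 * N ^ 4 := by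
  have a : |x * y| ≤ 4 * N ^ 4 := by
    rw [abs_mul]
    calc |x| * |y| ≤ (2 * N ^ 2) * (2 * N ^ 2) :=
          mul_le_mul h1 h2 (abs_nonneg _) (by positivity)
      _ = 4 * N ^ 4 := by ring
  have b : |x' * y'| ≤ 4 * N ^ 4 := by
    rw [abs_mul]
    calc |x'| * |y'| ≤ (2 * N ^ 2) * (2 * N ^ 2) :=
          mul_le_mul h3 h4 (abs_nonneg _) (by positivity)
      _ = 4 * N ^ 4 := by ring
  have a' := abs_le.mp a
  have b' := abs_le.mp b
  rw [abs_le]; constructor <;> linarith [a'.1, a'.2, b'.1, b'.2]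

/-- a proportional integer vector of bounded height yields a primitive one -/
theorem dic_prim (A B C : ℝ) (H : ℤ) (hA : 0 < A) (hD : 0 < 4 * A * C - B ^ 2)
    (h : ∃ (t : ℝ) (a b c : ℤ), |a| ≤ H ∧ |b| ≤ H ∧ |c| ≤ H ∧ A = t * a ∧ B = t * b ∧
      C = t * c) :
    ∃ (t : ℝ) (a b c : ℤ), 0 < t ∧ Pos a b c ∧ Prm a b c ∧ |a| ≤ H ∧ |b| ≤ H ∧ |c| ≤ H ∧
      A = t * a ∧ B = t * b ∧ C = t * c := by
  have hex : ∃ k : ℕ, ∃ (t : ℝ) (b c : ℤ), 0 < t ∧ |(k : ℤ)| ≤ H ∧ |b| ≤ H ∧ |c| ≤ H ∧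
      A = t * ((k : ℤ) : ℝ) ∧ B = t * b ∧ C = t * c := by
    obtain ⟨t, a, b, c, h1, h2, h3, h4, h5, h6⟩ := h
    rcases lt_trichotomy a 0 with ha | ha | ha
    · refine ⟨a.natAbs, -t, -b, -c, ?_, ?_, ?_, ?_, ?_, ?_, ?_⟩
      · have ha' : (a : ℝ) < 0 := by exact_mod_cast ha
        by_contra hc
        push Not at hc
        have : 0 ≤ t := by linarith
        nlinarith [mul_nonneg this (by linarith : (0 : ℝ) ≤ -a)]
      · rw [Int.natCast_natAbs, abs_abs]; exact h1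
      · rwa [abs_neg]
      · rwa [abs_neg]
      · rw [Int.natCast_natAbs, abs_of_neg ha]; push_cast; linarith
      · push_cast; linarith
      · push_cast; linarith
    · exfalso
      rw [ha] at h4
      simp at h4
      linarith
    · refine ⟨a.natAbs, t, b, c, ?_, ?_, h2, h3, ?_, h5, h6⟩
      · have ha' : (0 : ℝ) < a := by exact_mod_cast ha
        by_contra hc
        push Not at hc
        nlinarith [mul_nonneg (by linarith : (0 : ℝ) ≤ -t) ha'.le]
      · rw [Int.natCast_natAbs, abs_abs]; exact h1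
      · rw [Int.natCast_natAbs, abs_of_pos ha]; exact h4
  obtain ⟨t, b, c, ht, h1, h2, h3, h4, h5, h6⟩ := Nat.find_spec hex
  set k := Nat.find hex with hk
  have hk0 : 0 < k := by
    rcases Nat.eq_zero_or_pos k with h0 | h0
    · exfalso
      rw [h0] at h4
      simp at h4
      linarith
    · exact h0
  refine ⟨t, (k : ℤ), b, c, ht, ⟨by exact_mod_cast hk0, ?_⟩, ?_, h1, h2, h3, h4, h5, h6⟩
  · have e : 4 * A * C - B ^ 2 = t ^ 2 * ((ds (k : ℤ) b c : ℤ) : ℝ) := by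
      rw [h4, h5, h6]; unfold ds; push_cast; ring
    rw [e] at hD
    have : (0 : ℝ) < ((ds (k : ℤ) b c : ℤ) : ℝ) := by
      by_contra hc
      push Not at hc
      nlinarith [mul_nonneg (sq_nonneg t) (by linarith : (0 : ℝ) ≤ -((ds (k : ℤ) b c : ℤ) : ℝ))]
    exact_mod_cast this
  · intro p hp hpd
    obtain ⟨⟨x, hx⟩, ⟨y, hy⟩, ⟨z, hz⟩⟩ := hpd
    have hp0 : (0 : ℤ) < p := by exact_mod_cast hp.pos
    have hp1 : (1 : ℤ) ≤ p := by exact_mod_cast hp.one_lt.le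
    have hx0 : 0 < x := by
      have : (0 : ℤ) < p * x := by rw [← hx]; exact_mod_cast hk0
      exact (mul_pos_iff_of_pos_left hp0).mp this
    have hsm : ∀ u : ℤ, |u| ≤ |(p : ℤ) * u| := by
      intro u
      rw [abs_mul, abs_of_pos hp0]
      nlinarith [abs_nonneg u]
    have hlt : x.natAbs < k := by
      have h7 : ((x.natAbs : ℕ) : ℤ) < (k : ℤ) := by
        rw [Int.natCast_natAbs, abs_of_pos hx0, hx]
        have hp2 : (2 : ℤ) ≤ p := by exact_mod_cast hp.two_le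
        nlinarith
      exact_mod_cast h7
    apply Nat.find_min hex hlt
    refine ⟨t * p, y, z, ?_, ?_, ?_, ?_, ?_, ?_, ?_⟩
    · have : (0 : ℝ) < p := by exact_mod_cast hp.pos
      positivity
    · rw [Int.natCast_natAbs, abs_abs]
      exact le_trans (hsm x) (by rw [← hx]; exact h1)
    · exact le_trans (hsm y) (by rw [← hy]; exact h2)
    · exact le_trans (hsm z) (by rw [← hz]; exact h3)
    · rw [Int.natCast_natAbs, abs_of_pos hx0, h4, hx]; push_cast; ring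
    · rw [h5, hy]; push_cast; ring
    · rw [h6, hz]; push_cast; ring

theorem dic_two (A B C : ℝ) (N M : ℕ) (hA : 0 < A) (hD : 0 < 4 * A * C - B ^ 2) (hMN : M ≤ N)
    (s : ℝ) (v w w' : ℤ × ℤ) (hv : v ∈ sbox N M) (hw : w ∈ sbox N M) (hw' : w' ∈ sbox N M)
    (ev : Fm A B C v = s) (ew : Fm A B C w = s) (ew' : Fm A B C w' = s)
    (hZ : ¬ dicZ v w w') :
    ∃ (t : ℝ) (a b c : ℤ), 0 < t ∧ Pos a b c ∧ Prm a b c ∧ |a| ≤ 8 * (N : ℤ) ^ 4 ∧
      |b| ≤ 8 * (N : ℤ) ^ 4 ∧ |c| ≤ 8 * (N : ℤ) ^ 4 ∧ A = t * a ∧ B = t * b ∧ C = t * c := by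
  apply dic_prim A B C _ hA hD
  have l1 := dic_lin A B C v w (by rw [ev, ew])
  have l2 := dic_lin A B C v w' (by rw [ev, ew'])
  obtain ⟨b1, b2, b3⟩ := dic_bd N M hMN v w hv hw
  obtain ⟨b1', b2', b3'⟩ := dic_bd N M hMN v w' hv hw'
  unfold dicZ at hZ
  set p := dicP v w
  set q := dicQ v w
  set r := dicR v w
  set p' := dicP v w'
  set q' := dicQ v w'
  set r' := dicR v w'
  -- the vector product
  have c1 : A * ((r : ℝ) * p' - p * r') = B * ((q : ℝ) * r' - r * q') := by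
    linear_combination (r : ℝ) * l2 - (r' : ℝ) * l1
  have c2 : A * ((p : ℝ) * q' - q * p') = C * ((q : ℝ) * r' - r * q') := by
    linear_combination (q' : ℝ) * l1 - (q : ℝ) * l2
  have hn1 : q * r' - r * q' ≠ 0 := by
    intro h
    have h' : (q : ℝ) * r' - r * q' = 0 := by exact_mod_cast h
    rw [h', mul_zero] at c1 c2
    have d1 := (mul_eq_zero.mp c1).resolve_left hA.ne'
    have d2 := (mul_eq_zero.mp c2).resolve_left hA.ne'
    have d1' : r * p' - p * r' = 0 := by exact_mod_cast d1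
    have d2' : p * q' - q * p' = 0 := by exact_mod_cast d2
    apply hZ
    exact ⟨by linarith, by linarith, by linarith⟩
  have hn1' : (q : ℝ) * r' - r * q' ≠ 0 := by exact_mod_cast hn1
  refine ⟨A / ((q : ℝ) * r' - r * q'), q * r' - r * q', r * p' - p * r', p * q' - q * p',
    dic_prod N q r' r q' b2 b3' b3 b2', dic_prod N r p' p r' b3 b1' b1 b3',
    dic_prod N p q' q p' b1 b2' b2 b1', ?_, ?_, ?_⟩
  · push_cast
    rw [div_mul_cancel₀ _ hn1']
  · push_cast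
    rw [div_mul_eq_mul_div, eq_div_iff hn1']
    linarith
  · push_cast
    rw [div_mul_eq_mul_div, eq_div_iff hn1']
    linarith

theorem st_DIC : ST_DIC := by
  intro A B C N M hA hD hMN
  by_cases h : ∀ (s : ℝ) (S : Finset (ℤ × ℤ)), 0 < s → S ⊆ sbox N M →
      (∀ v ∈ S, Fm A B C v = s) → S.card ≤ 4
  · left; exact h
  · right
    push Not at h
    obtain ⟨s, S, hs, hS, hF, hc⟩ := h
    obtain ⟨v, hv⟩ : S.Nonempty := Finset.card_pos.mp (by omega)
    set T := (S.erase v).erase (-v) with hT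
    have hTc : 3 ≤ T.card := by
      have h1 : S.card - 1 = (S.erase v).card := (Finset.card_erase_of_mem hv).symm
      have h2 : (S.erase v).card - 1 ≤ T.card := Finset.pred_card_le_card_erase
      omega
    obtain ⟨T', hT', hT'c⟩ := Finset.exists_subset_card_eq hTc
    obtain ⟨w1, w2, w3, h12, h13, h23, hT3⟩ := Finset.card_eq_three.mp hT'c
    have hmem : ∀ w ∈ T', w ∈ S ∧ w ≠ v ∧ w ≠ -v := by
      intro w hw
      have := hT' hw
      rw [hT, Finset.mem_erase, Finset.mem_erase] at this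
      exact ⟨this.2.2, this.2.1, this.1⟩
    have m1 := hmem w1 (by rw [hT3]; simp)
    have m2 := hmem w2 (by rw [hT3]; simp)
    have m3 := hmem w3 (by rw [hT3]; simp)
    by_cases z2 : dicZ v w1 w2
    · by_cases z3 : dicZ v w1 w3
      · exfalso
        exact dic_key A B C s v w1 w2 w3 hs (hF v hv) (hF w1 m1.1) m1.2.1 m1.2.2 m2.2.1 m2.2.2
          m3.2.1 m3.2.2 h12 h13 h23 z2 z3
      · exact dic_two A B C N M hA hD hMN s v w1 w3 (hS hv) (hS m1.1) (hS m3.1) (hF v hv)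
          (hF w1 m1.1) (hF w3 m3.1) z3
    · exact dic_two A B C N M hA hD hMN s v w1 w2 (hS hv) (hS m1.1) (hS m2.1) (hF v hv)
        (hF w1 m1.1) (hF w2 m2.1) z2

end Pool.Agent.Helper47.UG
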