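import Mathlib
import Pool.Agent.Helper47.UG.Stmts

set_option autoImplicit false

/-!
Row PRO of the project UG (MP_e500b6_co): profiles at a prime power.
-/

namespace Pool.Agent.Helper47.UG

open Finset
open scoped Classical

theorem pro_inv (p : ℕ) (hp : p.Prime) (u m : ℤ) (hu : ¬ (p : ℤ) ∣ u) :
    ∃ s : ℤ, (p : ℤ) ∣ u * s - m := by
  have hc : IsCoprime (p : ℤ) u :=
    (Nat.prime_iff_prime_int.mp hp).coprime_iff_not_dvd.mpr hu
  obtain ⟨y, x, h⟩ := hc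
  refine ⟨x * m, ⟨- y * m, ?_⟩⟩
  linear_combination m * h

theorem pro_hensel (a b c : ℤ) (p : ℕ) (hp : p.Prime) (hds : ¬ (p : ℤ) ∣ 2 * ds a b c) (j0 : ℤ)
    (h0 : (p : ℤ) ∣ a * j0 ^ 2 - b * j0 + c) (n : ℕ) :
    ∃ J : ℤ, (p : ℤ) ∣ J - j0 ∧ ((p : ℤ) ^ (n + 1)) ∣ a * J ^ 2 - b * J + c := by
  induction n with
  | zero => exact ⟨j0, by simp, by simpa using h0⟩
  | succ n ih =>
    obtain ⟨J, hJ, m, hm⟩ := ih
    have hder : ¬ (p : ℤ) ∣ 2 * a * J - b := by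
      intro h
      apply hds
      have e1 : 2 * ds a b c = 8 * a * (a * J ^ 2 - b * J + c) -
          2 * (2 * a * J - b) * (2 * a * J - b) := by
        unfold ds; ring
      rw [e1]
      refine dvd_sub ?_ (Dvd.dvd.mul_left h _)
      refine Dvd.dvd.mul_left ?_ _
      rw [hm]
      exact Dvd.dvd.mul_right (dvd_pow_self _ (by omega)) _
    obtain ⟨s, t, ht⟩ := pro_inv p hp (2 * a * J - b) (-m) hder
    refine ⟨J + (p : ℤ) ^ (n + 1) * s, ?_, ?_⟩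
    · have e2 : J + (p : ℤ) ^ (n + 1) * s - j0 = (J - j0) + p * ((p : ℤ) ^ n * s) := by ring
      rw [e2]
      exact dvd_add hJ (dvd_mul_right _ _)
    · refine ⟨t + a * (p : ℤ) ^ n * s ^ 2, ?_⟩
      linear_combination hm + (p : ℤ) ^ (n + 1) * ht

theorem pro_inert (a b c : ℤ) (p : ℕ) (hp : p.Prime) (hds : ¬ (p : ℤ) ∣ 2 * ds a b c)
    (hr : ¬ ∃ r : ℤ, (p : ℤ) ∣ r ^ 2 + ds a b c) (v : ℤ × ℤ) (h : (p : ℤ) ∣ qf a b c v) :
    (p : ℤ) ∣ v.1 ∧ (p : ℤ) ∣ v.2 := by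
  have hpp : Prime (p : ℤ) := Nat.prime_iff_prime_int.mp hp
  have hy : (p : ℤ) ∣ v.2 := by
    by_contra hy
    obtain ⟨s, t, ht⟩ := pro_inv p hp v.2 1 hy
    obtain ⟨q, hq⟩ := h
    unfold qf at hq
    apply hr
    refine ⟨(2 * a * v.1 + b * v.2) * s, ⟨4 * a * q * s ^ 2 - ds a b c * t * (v.2 * s + 1), ?_⟩⟩
    unfold ds
    linear_combination (4 * a * s ^ 2) * hq - (4 * a * c - b ^ 2) * (v.2 * s + 1) * ht
  refine ⟨?_, hy⟩
  have h1 : (p : ℤ) ∣ (2 * a * v.1 + b * v.2) ^ 2 := by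
    have e : (2 * a * v.1 + b * v.2) ^ 2 = 4 * a * qf a b c v - (ds a b c * v.2) * v.2 := by
      unfold qf ds; ring
    rw [e]
    exact dvd_sub (Dvd.dvd.mul_left h _) (Dvd.dvd.mul_left hy _)
  have h2 : (p : ℤ) ∣ 2 * a * v.1 + b * v.2 := hpp.dvd_of_dvd_pow h1
  have h3 : (p : ℤ) ∣ 2 * a * v.1 := by
    have := dvd_sub h2 (Dvd.dvd.mul_left hy b)
    simpa using this
  rcases hpp.dvd_or_dvd h3 with h4 | h4
  · rcases hpp.dvd_or_dvd h4 with h5 | h5
    · exact absurd (Dvd.dvd.mul_right h5 _) hds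
    · exfalso
      apply hr
      refine ⟨b, ?_⟩
      have e : b ^ 2 + ds a b c = a * (4 * c) := by unfold ds; ring
      rw [e]
      exact Dvd.dvd.mul_right h5 _
  · exact h4

theorem pro_inert2 (a b c : ℤ) (p : ℕ) (hp : p.Prime) (hds : ¬ (p : ℤ) ∣ 2 * ds a b c)
    (hr : ¬ ∃ r : ℤ, (p : ℤ) ∣ r ^ 2 + ds a b c) (n : ℕ) :
    ∀ v : ℤ × ℤ, ((p : ℤ) ^ n) ∣ qf a b c v →
      ((p : ℤ) ^ ((n + 1) / 2)) ∣ v.1 ∧ ((p : ℤ) ^ ((n + 1) / 2)) ∣ v.2 := by
  induction n using Nat.strong_induction_on with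
  | _ n ih =>
    match n, ih with
    | 0, _ => intro v _; simp
    | 1, _ =>
      intro v h
      have := pro_inert a b c p hp hds hr v (by simpa using h)
      simpa using this
    | n + 2, ih =>
      intro v h
      have h1 : (p : ℤ) ∣ qf a b c v := dvd_trans (dvd_pow_self _ (by omega)) h
      obtain ⟨⟨x, hx⟩, ⟨y, hy⟩⟩ := pro_inert a b c p hp hds hr v h1
      have e : qf a b c v = (p : ℤ) ^ 2 * qf a b c (x, y) := by
        unfold qf; rw [hx, hy]; ring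
      have hp0 : ((p : ℤ) ^ 2) ≠ 0 := by
        have : (p : ℤ) ≠ 0 := by exact_mod_cast hp.ne_zero
        positivity
      have h2 : ((p : ℤ) ^ n) ∣ qf a b c (x, y) := by
        rw [e] at h
        obtain ⟨t, ht⟩ := h
        refine ⟨t, mul_left_cancel₀ hp0 ?_⟩
        rw [ht]; ring
      obtain ⟨⟨s, hs⟩, ⟨t, ht⟩⟩ := ih n (by omega) (x, y) h2
      have e3 : (n + 2 + 1) / 2 = (n + 1) / 2 + 1 := by omega
      rw [e3]
      simp only at hs ht
      refine ⟨⟨s, ?_⟩, ⟨t, ?_⟩⟩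
      · rw [hx, hs]; ring
      · rw [hy, ht]; ring

theorem pro_split (a b c : ℤ) (p k : ℕ) (hp : p.Prime) (hds : ¬ (p : ℤ) ∣ 2 * ds a b c)
    (hk : 1 ≤ k) (j0 : ℤ) (h0 : (p : ℤ) ∣ a * j0 ^ 2 - b * j0 + c) :
    ∃ e : ℤ × ℤ → ℕ, (∀ v, e v ≤ k) ∧
    (∀ v w : ℤ × ℤ, ((p : ℤ) ^ k) ∣ qf a b c v → ((p : ℤ) ^ k) ∣ qf a b c w → e v = e w →
      ((p : ℤ) ^ k) ∣ dt v w ∧ ((p : ℤ) ^ k) ∣ bf a b c v w) ∧
    (∀ v : ℤ × ℤ, ¬ (p : ℤ) ∣ v.1 + j0 * v.2 → e v = 0) := by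
  have hpp : Prime (p : ℤ) := Nat.prime_iff_prime_int.mp hp
  obtain ⟨n, rfl⟩ : ∃ n, k = n + 1 := ⟨k - 1, by omega⟩
  obtain ⟨J, hJ, hg⟩ := pro_hensel a b c p hp hds j0 h0 n
  have hder : ¬ (p : ℤ) ∣ b - 2 * a * J := by
    intro h
    apply hds
    have e1 : 2 * ds a b c = 8 * a * (a * J ^ 2 - b * J + c) -
        2 * (b - 2 * a * J) * (b - 2 * a * J) := by
      unfold ds; ring
    rw [e1]
    refine dvd_sub ?_ (Dvd.dvd.mul_left h _)
    refine Dvd.dvd.mul_left ?_ _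
    exact dvd_trans (dvd_pow_self _ (by omega)) hg
  set L1 : ℤ × ℤ → ℤ := fun v => v.1 + J * v.2 with hL1
  set L2 : ℤ × ℤ → ℤ := fun v => a * v.1 + (b - a * J) * v.2 with hL2
  set e : ℤ × ℤ → ℕ := fun v => Nat.findGreatest (fun i => (p : ℤ) ^ i ∣ L1 v) (n + 1) with he
  have hle : ∀ v, e v ≤ n + 1 := fun v => Nat.findGreatest_le _
  have hdiv : ∀ v, (p : ℤ) ^ e v ∣ L1 v := by
    intro v
    have := Nat.findGreatest_spec (P := fun i => (p : ℤ) ^ i ∣ L1 v) (m := 0) (n := n + 1)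
      (by omega) (by simp)
    exact this
  have hdiv2 : ∀ v, ((p : ℤ) ^ (n + 1)) ∣ qf a b c v → (p : ℤ) ^ (n + 1 - e v) ∣ L2 v := by
    intro v hv
    rcases Nat.lt_or_ge (e v) (n + 1) with hlt | hge
    · obtain ⟨m, hm⟩ := hdiv v
      have hm' : ¬ (p : ℤ) ∣ m := by
        rintro ⟨m', rfl⟩
        have hgr := Nat.findGreatest_is_greatest (P := fun i => (p : ℤ) ^ i ∣ L1 v) (n := n + 1)
          (k := e v + 1) (by simp [he]) (by omega)
        apply hgr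
        exact ⟨m', by rw [hm]; ring⟩
      have h1 : ((p : ℤ) ^ (n + 1)) ∣ L1 v * L2 v := by
        have e2 : L1 v * L2 v = qf a b c v - (a * J ^ 2 - b * J + c) * v.2 ^ 2 := by
          simp only [hL1, hL2]; unfold qf; ring
        rw [e2]
        exact dvd_sub hv (Dvd.dvd.mul_right hg _)
      rw [hm] at h1
      have hsplit : (p : ℤ) ^ (n + 1) = (p : ℤ) ^ e v * (p : ℤ) ^ (n + 1 - e v) := by
        rw [← pow_add]; congr 1; omega
      have hp0 : ((p : ℤ) ^ e v) ≠ 0 := by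
        have : (p : ℤ) ≠ 0 := by exact_mod_cast hp.ne_zero
        positivity
      rw [hsplit, mul_assoc] at h1
      have h2 : (p : ℤ) ^ (n + 1 - e v) ∣ m * L2 v := (mul_dvd_mul_iff_left hp0).mp h1
      have hc : IsCoprime ((p : ℤ) ^ (n + 1 - e v)) m :=
        IsCoprime.pow_left (hpp.coprime_iff_not_dvd.mpr hm')
      exact hc.dvd_of_dvd_mul_left h2
    · have : n + 1 - e v = 0 := by omega
      rw [this]; simp
  refine ⟨e, hle, ?_, ?_⟩
  · intro v w hv hw hvw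
    have h1 : (p : ℤ) ^ (n + 1) ∣ L1 v * L2 w := by
      have := mul_dvd_mul (hdiv v) (hdiv2 w hw)
      rw [← hvw, ← pow_add] at this
      have e3 : e v + (n + 1 - e v) = n + 1 := by have := hle v; omega
      rwa [e3] at this
    have h2 : (p : ℤ) ^ (n + 1) ∣ L1 w * L2 v := by
      have := mul_dvd_mul (hdiv w) (hdiv2 v hv)
      rw [hvw, ← pow_add] at this
      have e3 : e w + (n + 1 - e w) = n + 1 := by have := hle w; omega
      rwa [e3] at this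
    constructor
    · have h3 : (p : ℤ) ^ (n + 1) ∣ (b - 2 * a * J) * dt v w := by
        have e4 : (b - 2 * a * J) * dt v w = L1 v * L2 w - L1 w * L2 v := by
          simp only [hL1, hL2]; unfold dt; ring
        rw [e4]
        exact dvd_sub h1 h2
      have hc : IsCoprime ((p : ℤ) ^ (n + 1)) (b - 2 * a * J) :=
        IsCoprime.pow_left (hpp.coprime_iff_not_dvd.mpr hder)
      exact hc.dvd_of_dvd_mul_left h3
    · have e5 : bf a b c v w = L1 v * L2 w + L1 w * L2 v +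
          (a * J ^ 2 - b * J + c) * (2 * v.2 * w.2) := by
        simp only [hL1, hL2]; unfold bf; ring
      rw [e5]
      exact dvd_add (dvd_add h1 h2) (Dvd.dvd.mul_right hg _)
  · intro v hv
    have hn : ∀ i : ℕ, 0 < i → i ≤ n + 1 → ¬ (p : ℤ) ^ i ∣ L1 v := by
      intro i hi _ hdv
      apply hv
      have h1 : (p : ℤ) ∣ L1 v := dvd_trans (dvd_pow_self _ (by omega)) hdv
      have e6 : v.1 + j0 * v.2 = L1 v - (J - j0) * v.2 := by
        simp only [hL1]; ring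
      rw [e6]
      exact dvd_sub h1 (Dvd.dvd.mul_right hJ _)
    exact Nat.findGreatest_eq_zero_iff.mpr (fun {i} h1 h2 => hn i h1 h2)

theorem pro_root (a b c : ℤ) (p : ℕ) (hp : p.Prime) (hds : ¬ (p : ℤ) ∣ 2 * ds a b c)
    (hr : ∃ r : ℤ, (p : ℤ) ∣ r ^ 2 + ds a b c) :
    ∃ j0 : ℤ, (p : ℤ) ∣ a * j0 ^ 2 - b * j0 + c := by
  have hpp : Prime (p : ℤ) := Nat.prime_iff_prime_int.mp hp
  obtain ⟨r, q, hq⟩ := hr
  by_cases ha : (p : ℤ) ∣ a
  · have hb : ¬ (p : ℤ) ∣ b := by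
      intro hb
      apply hds
      have e : 2 * ds a b c = a * (8 * c) - b * (2 * b) := by unfold ds; ring
      rw [e]
      exact dvd_sub (Dvd.dvd.mul_right ha _) (Dvd.dvd.mul_right hb _)
    obtain ⟨s, hs⟩ := pro_inv p hp b c hb
    refine ⟨s, ?_⟩
    have e : a * s ^ 2 - b * s + c = a * s ^ 2 - (b * s - c) := by ring
    rw [e]
    exact dvd_sub (Dvd.dvd.mul_right ha _) hs
  · have h2a : ¬ (p : ℤ) ∣ 2 * a := by
      intro h
      rcases hpp.dvd_or_dvd h with h1 | h1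
      · exact hds (Dvd.dvd.mul_right h1 _)
      · exact ha h1
    obtain ⟨s, t, ht⟩ := pro_inv p hp (2 * a) (b + r) h2a
    refine ⟨s, ?_⟩
    have h4 : (p : ℤ) ∣ (2 * a) * (2 * (a * s ^ 2 - b * s + c)) := by
      refine ⟨t * (2 * a * s - b + r) + q, ?_⟩
      unfold ds at hq
      linear_combination (2 * a * s - b + r) * ht + hq
    rcases hpp.dvd_or_dvd h4 with h5 | h5
    · exact absurd h5 h2a
    · rcases hpp.dvd_or_dvd h5 with h6 | h6
      · exact absurd (Dvd.dvd.mul_right h6 _) hds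
      · exact h6

theorem st_PRO : ST_PRO := by
  intro a b c p k j hp hds
  rcases Nat.eq_zero_or_pos k with hk | hk
  · subst hk
    exact ⟨fun _ => 0, by simp, by simp, by simp, by simp⟩
  by_cases hr : ∃ r : ℤ, (p : ℤ) ∣ r ^ 2 + ds a b c
  · by_cases hj : (p : ℤ) ∣ a * j ^ 2 - b * j + c
    · obtain ⟨e, h1, h2, h3⟩ := pro_split a b c p k hp hds hk j hj
      exact ⟨e, h1, h2, fun _ => h3, fun h => absurd hr h⟩
    · obtain ⟨j0, hj0⟩ := pro_root a b c p hp hds hr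
      obtain ⟨e, h1, h2, h3⟩ := pro_split a b c p k hp hds hk j0 hj0
      exact ⟨e, h1, h2, fun h => absurd h hj, fun h => absurd hr h⟩
  · refine ⟨fun _ => 0, by simp, ?_, by simp, by simp⟩
    intro v w hv hw _
    obtain ⟨⟨x, hx⟩, ⟨y, hy⟩⟩ := pro_inert2 a b c p hp hds hr k v hv
    obtain ⟨⟨x', hx'⟩, ⟨y', hy'⟩⟩ := pro_inert2 a b c p hp hds hr k w hw
    have hpow : (p : ℤ) ^ k ∣ (p : ℤ) ^ ((k + 1) / 2) * (p : ℤ) ^ ((k + 1) / 2) := by
      rw [← pow_add]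
      exact pow_dvd_pow _ (by omega)
    constructor
    · refine dvd_trans hpow ⟨x * y' - y * x', ?_⟩
      unfold dt
      rw [hx, hy, hx', hy']; ring
    · refine dvd_trans hpow ⟨2 * a * x * x' + b * (x * y' + y * x') + 2 * c * y * y', ?_⟩
      unfold bf
      rw [hx, hy, hx', hy']; ring

end Pool.Agent.Helper47.UG
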